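import Mathlib
import Pool.Agent.Helper25.SqCl

/-!
# Project BQ, piece D3: extension of a functional from the rational classes to `Cl(K)[2]`
-/

namespace Pool.Agent.Helper67.BQ

open Module NumberField Pool.Agent.Helper25.Biq

variable {K : Type} [Field K] [NumberField K]

lemma psi_wd {n : ℕ} (ψ : ℚ → Fin n → ZMod 2)
    (hm : ∀ a b, a ≠ 0 → b ≠ 0 → ψ (a * b) = ψ a + ψ b)
    (hu : ∀ f, f ≠ 0 → sc (algebraMap ℚ K f) ∈ UCl K → ψ f = 0) {f f' : ℚ} (hf : f ≠ 0)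
    (hf' : f' ≠ 0) (h : (UCl K).mkQ (sc (algebraMap ℚ K f)) =
      (UCl K).mkQ (sc (algebraMap ℚ K f'))) : ψ f = ψ f' := by
  have hK : ∀ {x : ℚ}, x ≠ 0 → algebraMap ℚ K x ≠ 0 := fun hx => (map_ne_zero _).2 hx
  have h1 : sc (algebraMap ℚ K f) + sc (algebraMap ℚ K f') ∈ UCl K := by
    have h2 := (Submodule.Quotient.eq (UCl K)).1 h
    rwa [sub_eq_add_neg, neg_eq] at h2
  rw [← sc_mul (hK hf) (hK hf'), ← map_mul] at h1
  have h2 := hu _ (mul_ne_zero hf hf') h1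
  rw [hm _ _ hf hf'] at h2
  funext i
  have h3 := congrFun h2 i
  rw [Pi.add_apply, Pi.zero_apply] at h3
  exact CharTwo.add_eq_zero.1 h3

variable (K) in
/-- The classes of order two that are represented by rational numbers. -/
noncomputable def ratCl : Submodule (ZMod 2) (TT K) :=
  AddSubgroup.toZModSubmodule 2
    { carrier := {t | ∃ f : ℚ, f ≠ 0 ∧ toQ t = (UCl K).mkQ (sc (algebraMap ℚ K f))}
      zero_mem' := ⟨1, one_ne_zero, by rw [map_zero, map_one, sc_one, map_zero]⟩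
      add_mem' := by
        rintro t t' ⟨f, hf, h⟩ ⟨f', hf', h'⟩
        refine ⟨f * f', mul_ne_zero hf hf', ?_⟩
        rw [map_add, h, h', map_mul, sc_mul ((map_ne_zero _).2 hf) ((map_ne_zero _).2 hf'),
          map_add]
      neg_mem' := by
        rintro t ⟨f, hf, h⟩
        refine ⟨f, hf, ?_⟩
        rw [map_neg, h, ← map_neg, neg_eq] }

lemma mem_ratCl {t : TT K} :
    t ∈ ratCl K ↔ ∃ f : ℚ, f ≠ 0 ∧ toQ t = (UCl K).mkQ (sc (algebraMap ℚ K f)) := Iff.rfl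

/-- D3. Extension of a functional from the rational classes to `Cl(K)[2]`. -/
theorem exists_psi [IsGalois ℚ K] {n : ℕ} (ψ : ℚ → Fin n → ZMod 2)
    (hm : ∀ a b, a ≠ 0 → b ≠ 0 → ψ (a * b) = ψ a + ψ b)
    (hu : ∀ f, f ≠ 0 → sc (algebraMap ℚ K f) ∈ UCl K → ψ f = 0) :
    ∃ Ψ : TT K →ₗ[ZMod 2] (Fin n → ZMod 2), ∀ (t : TT K) (f : ℚ), f ≠ 0 →
      toQ t = (UCl K).mkQ (sc (algebraMap ℚ K f)) → Ψ t = ψ f := by
  choose f hf h using fun t : ratCl K => mem_ratCl.1 t.2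
  let Φ : ratCl K →ₗ[ZMod 2] (Fin n → ZMod 2) :=
    AddMonoidHom.toZModLinearMap 2
      { toFun := fun t => ψ (f t)
        map_zero' := by
          refine hu _ (hf 0) ?_
          have h1 := h 0
          rw [ZeroMemClass.coe_zero, map_zero] at h1
          exact (Submodule.Quotient.mk_eq_zero _).1 h1.symm
        map_add' := by
          intro t t'
          rw [← hm _ _ (hf t) (hf t')]
          refine psi_wd ψ hm hu (hf _) (mul_ne_zero (hf t) (hf t')) ?_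
          rw [← h, map_mul, sc_mul ((map_ne_zero _).2 (hf t)) ((map_ne_zero _).2 (hf t')),
            map_add, ← h, ← h, ← map_add]
          rfl }
  obtain ⟨Ψ, hΨ⟩ := LinearMap.exists_extend Φ
  refine ⟨Ψ, fun t g hg ht => ?_⟩
  have h1 : Ψ t = Φ ⟨t, ⟨g, hg, ht⟩⟩ := by
    rw [← hΨ]
    rfl
  rw [h1]
  exact psi_wd ψ hm hu (hf _) hg ((h _).symm.trans ht)

end Pool.Agent.Helper67.BQ
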